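import Pool.Agent.Y683.AA.HPw
import Pool.Agent.Y683.Cent
import Pool.Agent.W765.HK.Pair
import Pool.Agent.W216.CY.Div
import Pool.Agent.W287.HK.Basic
import Pool.Agent.W571.HK.Cls
import Pool.Agent.W53.HK.Fp
import Pool.Agent.W366.HK.Fpr
import Pool.Agent.W585.HK.LAT
import Pool.Agent.W692.HK.Ker
import Pool.Agent.W584.HK.CNT
import Pool.Agent.W513.HK.Divr
import Pool.Agent.W822.HK.MU
import Pool.Agent.W240.HK.Count
import Pool.Agent.W856.HK.Dec
import Pool.Agent.W636.HK.Gauss
import Pool.Agent.W348.HK.Pois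

/-!
# Central values of 100% of all Hecke characters of an imaginary quadratic field, in all weights

`R` is the ring of integers of an imaginary quadratic field `K` of any class number.  The primitive
algebraic Hecke characters `θ` of `K` of infinity type `(2m - 1, 0)` are the characters whose
`L`-functions make up the `L`-functions of `H^(2m-1)` of the powers of elliptic curves with complex
multiplication by `K`, over abelian extensions of `K`; `s = m` is the centre, at which the
conjecture predicts that the order of vanishing is the dimension of a group of homologically trivial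
cycles.

* The average order of vanishing of `L(θ, s)` at `s = m`, over **all** `θ` with a conductor of norm at
  most `X`, is `O(exp(-c (log X)^(1/3)))`, uniformly for `1 ≤ m ≤ X^(1 - ε)`.
* For `100%` of the ideals `q` (all those of norm at most `X` but `O(X exp(-c (log X)^(1/3)))`), the
  total order of vanishing over **all** `θ` modulo `q`, that is the order of vanishing over the ray
  class field of conductor `q`, is at most `C (m N(q))^ε (N(q)^(2/3) + (m N(q))^(1/2))`, for all `m`.

The input on central values is the starting theorem (`Pool.Agent.Y683.nonvan`): `L(θ, m) ≠ 0` if the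
finite part of `θ` has large order.  New here: the number of characters of `(R/q)ˣ` of small order is
small unless the exponent of `(R/q)ˣ` is small, and this happens for few ideals `q`, since otherwise
`N(q)` has a large square divisor, or few prime divisors with large part, or two primes `p`, `p'` exactly
dividing `N(q)` such that `p - 1` and `p' - 1` have a large common divisor; and a lower bound for the
number of primitive Hecke characters with a conductor of norm at most `X`.
-/

set_option autoImplicit false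

open Complex

namespace Pool.Agent.Results.MP_29b22a_nt.AlmostAllHeckeCharacters

/-- The norm `N(I)` of an ideal (`0` for the zero ideal, whose residue ring is infinite). -/
noncomputable def norm {R : Subring ℂ} (I : Ideal R) : ℝ := (Nat.card (R ⧸ I) : ℝ)

/-- `θ`, a function on the ideals of `R`, is a primitive Hecke character of conductor `q` and infinity
type `(n, 0)`: it is multiplicative, vanishes exactly at the zero ideal and the ideals not prime to
`q`, satisfies `θ((α)) = α ^ n` for `α ≡ 1 mod q`, and this fails for every strictly larger ideal `q'`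
in place of `q`. -/
structure IsHecke {R : Subring ℂ} (n : ℕ) (q : Ideal R) (θ : Ideal R → ℂ) : Prop where
  ne_bot : q ≠ ⊥
  mul : ∀ I J : Ideal R, θ (I * J) = θ I * θ J
  eq_zero : ∀ I : Ideal R, θ I = 0 ↔ (I = ⊥ ∨ ¬ IsCoprime I q)
  principal : ∀ α : R, α ≠ 0 → α - 1 ∈ q → θ (Ideal.span {α}) = (α : ℂ) ^ n
  primitive : ∀ q' : Ideal R, q < q' → ∃ α : R, α ≠ 0 ∧ α - 1 ∈ q' ∧ IsCoprime (Ideal.span {α}) q ∧
    θ (Ideal.span {α}) ≠ (α : ℂ) ^ n

/-- All primitive Hecke characters of infinity type `(2m - 1, 0)` whose conductor has norm at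
most `X`. -/
def Characters (R : Subring ℂ) (m X : ℕ) : Set (Ideal R → ℂ) :=
  {θ | ∃ q : Ideal R, IsHecke (2 * m - 1) q θ ∧ norm q ≤ X}

/-- All primitive Hecke characters of infinity type `(2m - 1, 0)` whose conductor divides `q`. -/
def Modulo {R : Subring ℂ} (m : ℕ) (q : Ideal R) : Set (Ideal R → ℂ) :=
  {θ | ∃ f : Ideal R, IsHecke (2 * m - 1) f θ ∧ q ≤ f}

/-- `F` is entire, `F(s) = ∑ θ(I) N(I)^(-s)` for `Re s > m + 1/2`, and `F` is not identically zero
near `m`. -/
def IsLFunction {R : Subring ℂ} (m : ℕ) (θ : Ideal R → ℂ) (F : ℂ → ℂ) : Prop :=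
  Differentiable ℂ F ∧ analyticOrderAt F m ≠ ⊤ ∧ ∀ s : ℂ, (m : ℝ) + 1 / 2 < s.re →
    HasSum (fun I : Ideal R => θ I * (norm I : ℂ) ^ (-s)) (F s)

/-- The sum of the orders of vanishing at `s = m` of the `L m θ` over the `θ` in `S`. -/
noncomputable def totalOrder {R : Subring ℂ} (L : ℕ → (Ideal R → ℂ) → ℂ → ℂ) (m : ℕ)
    (S : Set (Ideal R → ℂ)) : ℕ :=
  ∑ᶠ θ ∈ S, analyticOrderNatAt (L m θ) m

/-- `exp(-c (log X)^(1/3))`. -/
noncomputable def decay (c : ℝ) (X : ℕ) : ℝ := Real.exp (-c * (Real.log X) ^ ((1 : ℝ) / 3))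

/-- `(m n)^ε (n^(2/3) + (m n)^(1/2))`. -/
noncomputable def bound (ε : ℝ) (m : ℕ) (n : ℝ) : ℝ :=
  (m * n) ^ ε * (n ^ (2 / 3 : ℝ) + (m * n) ^ (1 / 2 : ℝ))

/-- The nonzero ideals `q` of norm at most `X` for which the order of vanishing at `s = m` over the
ray class field of `q` is larger than `C (m N(q))^ε (N(q)^(2/3) + (m N(q))^(1/2))` for some
`m ≥ 1`. -/
def Exceptional {R : Subring ℂ} (L : ℕ → (Ideal R → ℂ) → ℂ → ℂ) (C ε : ℝ) (X : ℕ) :
    Set (Ideal R) :=
  {q | q ≠ ⊥ ∧ norm q ≤ X ∧ ∃ m : ℕ, 1 ≤ m ∧ C * bound ε m (norm q) < totalOrder L m (Modulo m q)}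

theorem isHecke_iff {R : Subring ℂ} (n : ℕ) (f : Ideal R) (ψ : Ideal R → ℂ) :
    IsHecke n f ψ ↔ Pool.Agent.W192.HK.HC n f ψ :=
  ⟨fun h => ⟨h.ne_bot, h.mul, h.eq_zero, h.principal, h.primitive⟩,
    fun h => ⟨h.ne, h.mul, h.zero, h.princ, h.prim⟩⟩

/-- **Main theorem.** Let `R = ℤ + ℤ ω` be a subring of `ℂ` that is a lattice and a Dedekind domain.
The primitive Hecke characters `θ` of type `(2m - 1, 0)`, `m ≥ 1`, have entire `L`-functions `L m θ`,
not identically zero near `m`; for all `m ≥ 1`, only finitely many have a conductor of norm at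
most `X`, for large `X` at least `c (X / log X)²`, and only finitely many have a conductor dividing a
given `q ≠ 0`.  Let `ε > 0`.

(A) There are `C`, `c > 0` such that for all `X ≥ 1` and `1 ≤ m ≤ X^(1 - ε)` the average order of
vanishing of `L m θ` at the centre `s = m`, and the proportion of the `θ` with `L m θ m = 0`, over
**all** `θ` of type `(2m - 1, 0)` with a conductor of norm at most `X`, are at most
`C exp(-c (log X)^(1/3))`.

(B) There are `C`, `c > 0` such that for all `X ≥ 1` and all nonzero ideals `q` of norm at most `X`,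
with at most `C X exp(-c (log X)^(1/3))` exceptions, and for all `m ≥ 1`, the sum of the orders of
vanishing at `s = m` over **all** `θ` of type `(2m - 1, 0)` whose conductor divides `q` is at most
`C (m N(q))^ε (N(q)^(2/3) + (m N(q))^(1/2))`. -/
theorem result (R : Subring ℂ) (ω : ℂ) (hω : 0 < ω.im)
    (hR : ∀ z : ℂ, z ∈ R ↔ ∃ x y : ℤ, z = x + y * ω) (hded : IsDedekindDomain R) :
    ∃ L : ℕ → (Ideal R → ℂ) → ℂ → ℂ,
      (∀ (m : ℕ) (q : Ideal R) (θ : Ideal R → ℂ), 1 ≤ m → IsHecke (2 * m - 1) q θ →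
        IsLFunction m θ (L m θ)) ∧
      (∀ m X : ℕ, (Characters R m X).Finite) ∧
      (∀ (m : ℕ) (q : Ideal R), q ≠ ⊥ → (Modulo m q).Finite) ∧
      (∃ c X₀ : ℝ, 0 < c ∧ ∀ m X : ℕ, X₀ ≤ X →
        c * ((X : ℝ) / Real.log X) ^ 2 ≤ (Characters R m X).ncard) ∧
      ∀ ε : ℝ, 0 < ε → ∃ C c : ℝ, 0 < C ∧ 0 < c ∧
        (∀ X m : ℕ, 1 ≤ X → 1 ≤ m → (m : ℝ) ≤ (X : ℝ) ^ (1 - ε) →
          (totalOrder L m (Characters R m X) : ℝ) ≤
            C * decay c X * (Characters R m X).ncard ∧
          ({θ ∈ Characters R m X | L m θ m = 0}.ncard : ℝ) ≤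
            C * decay c X * (Characters R m X).ncard) ∧
        ∀ X : ℕ, 1 ≤ X → (Exceptional L C ε X).Finite ∧
          ((Exceptional L C ε X).ncard : ℝ) ≤ C * X * decay c X := by
  classical
  have hbasic := Pool.Agent.W287.HK.h_basic
  have hcls := Pool.Agent.W571.HK.h_cls hbasic
  have hfp := Pool.Agent.W53.HK.h_fp hbasic hcls
  have hfpr := Pool.Agent.W366.HK.h_fpr hbasic hcls
  have hlat := Pool.Agent.W585.HK.h_lat hbasic
  have hker := Pool.Agent.W692.HK.h_ker hbasic hcls hfpr
  have hcnt := Pool.Agent.W584.HK.h_cnt hbasic hcls hfpr hlat hker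
  have hdivr := Pool.Agent.W513.HK.h_divr hbasic
  have hmu := Pool.Agent.W822.HK.h_mu hbasic
  have hcount := Pool.Agent.W240.HK.h_count hbasic hcnt hdivr
  have hdiv := Pool.Agent.W216.CY.t_div
  have hdec := Pool.Agent.W856.HK.h_dec hbasic
  have hgauss := Pool.Agent.W636.HK.h_gauss hbasic hfp
  have hpois := Pool.Agent.W348.HK.h_pois hbasic
  have htheta := Pool.Agent.TH936.HK.h_theta hbasic hfp hdec hgauss hpois hcnt
  have hafe := Pool.Agent.TH936.HK.h_afe hbasic hfp hcnt hgauss htheta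
  have htail := Pool.Agent.Y683.tailz hbasic hcnt hcount
  have hmain := Pool.Agent.Y683.mainb hbasic hcnt hdivr htail
  have hdual := Pool.Agent.Y683.dualb hdiv hbasic hcnt hker hfpr
  have hfin := Pool.Agent.Y683.finb hdiv hbasic hcnt hmu hmain hdual
  have hQ : Pool.Agent.W192.HK.QR R ω := ⟨hω, hR, hded⟩
  obtain ⟨C0, hC⟩ := Pool.Agent.Y683.AA.exists_idCount hbasic hcnt hQ
  obtain ⟨L, hL, K, ho⟩ := Pool.Agent.Y683.AA.exists_L hbasic hcls hcnt hfpr hfp hdec hgauss
    htheta hafe hfin hQ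
  have hchar : ∀ m X : ℕ, Characters R m X = Pool.Agent.Y683.AA.Hk R m X := by
    intro m X
    ext θ
    constructor
    · rintro ⟨q, h1, h2⟩
      refine ⟨q, (isHecke_iff _ _ _).1 h1, ?_⟩
      have : ((Nat.card (R ⧸ q) : ℕ) : ℝ) ≤ X := h2
      exact_mod_cast this
    · rintro ⟨q, h1, h2⟩
      refine ⟨q, (isHecke_iff _ _ _).2 h1, ?_⟩
      change ((Nat.card (R ⧸ q) : ℕ) : ℝ) ≤ X
      exact_mod_cast h2
  have hmod : ∀ (m : ℕ) (q : Ideal R), Modulo m q = Pool.Agent.Y683.AA.Dv m q := by
    intro m q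
    ext θ
    constructor
    · rintro ⟨f, h1, h2⟩
      exact ⟨f, (isHecke_iff _ _ _).1 h1, h2⟩
    · rintro ⟨f, h1, h2⟩
      exact ⟨f, (isHecke_iff _ _ _).2 h1, h2⟩
  have hfinC : ∀ m X : ℕ, (Characters R m X).Finite := fun m X => by
    rw [hchar]
    exact Pool.Agent.Y683.AA.hk_finite hbasic hcls hfp hQ hC m X
  refine ⟨L, fun m q θ hm hθ => ?_, hfinC, fun m q hq => ?_, ?_, fun ε hε => ?_⟩
  · have h := hL m q θ hm ((isHecke_iff _ _ _).1 hθ)
    exact ⟨h.diff, h.ord, h.sum⟩
  · rw [hmod]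
    exact (Pool.Agent.Y683.AA.hk_finite hbasic hcls hfp hQ hC m _).subset
      (Pool.Agent.Y683.AA.dv_subset hbasic hQ m hq le_rfl)
  · obtain ⟨c, X0, hc, hX0, h1⟩ := Pool.Agent.Y683.AA.hk_lower hbasic hcls hfp hQ hC
    refine ⟨c / 9, max X0 3, by positivity, fun m X hX => ?_⟩
    have h2 := h1 m X ((le_max_left _ _).trans hX)
    rw [hchar]
    have h3 : (3 : ℝ) ≤ X := (le_max_right _ _).trans hX
    have hlog : 1 ≤ Real.log X := by
      rw [Real.le_log_iff_exp_le (by linarith)]
      have := Real.exp_one_lt_d9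
      linarith
    rw [div_pow, ← mul_div_assoc, div_le_iff₀ (by positivity)]
    have h4 : (1 + 2 * Real.log X) ^ 2 ≤ 9 * (Real.log X) ^ 2 := by nlinarith
    have h5 := mul_le_mul_of_nonneg_left h4
      (Nat.cast_nonneg (α := ℝ) (Pool.Agent.Y683.AA.Hk R m X).ncard)
    linarith
  · obtain ⟨C1, c1, hC1, hc1, h1⟩ := Pool.Agent.Y683.AA.hecke_avg hbasic hcls hfp hdivr hQ hC ho hε
    obtain ⟨C2, c2, hC2, hc2, h2⟩ := Pool.Agent.Y683.AA.pw_main hbasic hcls hfp hdivr hQ hC ho hε
    have hdecay : ∀ (a b : ℝ), a ≤ b → ∀ X : ℕ, Real.exp (-b * Pool.Agent.Y683.AA.cr X) ≤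
        decay a X := by
      intro a b hab X
      unfold decay
      refine Real.exp_le_exp.2 ?_
      have h3 := mul_le_mul_of_nonneg_right hab (Pool.Agent.Y683.AA.cr_nonneg X)
      change -b * Pool.Agent.Y683.AA.cr X ≤ -a * Pool.Agent.Y683.AA.cr X
      linarith
    have hdpos : ∀ (a : ℝ) (X : ℕ), 0 < decay a X := fun a X => Real.exp_pos _
    refine ⟨max C1 C2, min c1 c2, lt_max_of_lt_left hC1, lt_min hc1 hc2, fun X m hX hm hmX => ?_,
      fun X hX => ?_⟩
    · have h3 : (totalOrder L m (Characters R m X) : ℝ) ≤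
          max C1 C2 * decay (min c1 c2) X * (Characters R m X).ncard := by
        unfold totalOrder
        rw [hchar]
        refine (h1 X m hX hm hmX).trans ?_
        have h4 := hdecay _ _ (min_le_left c1 c2) X
        have h5 := le_max_left C1 C2
        have h6 := hdpos (min c1 c2) X
        gcongr
      refine ⟨h3, le_trans ?_ h3⟩
      unfold totalOrder
      refine (Nat.cast_le (α := ℝ)).2 (Pool.Agent.Y683.AA.ncard_le_fs
        (hfinC m X) _ _ fun θ hθ h0 hz => ?_)
      obtain ⟨q, h4, h5⟩ := hθ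
      have h := hL m q θ hm ((isHecke_iff _ _ _).1 h4)
      have h6 : analyticOrderAt (L m θ) m = 0 := by
        rw [← Nat.cast_analyticOrderNatAt h.ord, hz]
        rfl
      exact ((h.diff.analyticAt _).analyticOrderAt_eq_zero.1 h6) h0
    · obtain ⟨h3, h4⟩ := h2 X hX
      have hsub : Exceptional L (max C1 C2) ε X ⊆ {q : Ideal R | q ≠ ⊥ ∧
          Pool.Agent.Y683.AA.nn q ≤ X ∧ ∃ m : ℕ, 1 ≤ m ∧
          C2 * Pool.Agent.Y683.AA.bnd ε m (Pool.Agent.W192.HK.nm q) <
            ((∑ᶠ θ ∈ Pool.Agent.Y683.AA.Dv m q, analyticOrderNatAt (L m θ) (m : ℂ) : ℕ) : ℝ)} := by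
        rintro q ⟨h5, h6, m, hm, h7⟩
        refine ⟨h5, ?_, m, hm, lt_of_le_of_lt ?_ (by
          unfold totalOrder at h7
          rw [hmod] at h7
          exact h7)⟩
        · have : ((Nat.card (R ⧸ q) : ℕ) : ℝ) ≤ X := h6
          exact_mod_cast this
        · refine mul_le_mul_of_nonneg_right (le_max_right _ _) ?_
          have : (0 : ℝ) ≤ Pool.Agent.W192.HK.nm q := Nat.cast_nonneg _
          unfold Pool.Agent.Y683.AA.bnd
          positivity
      refine ⟨h3.subset hsub, ?_⟩
      have h5 : ((Exceptional L (max C1 C2) ε X).ncard : ℝ) ≤ _ :=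
        (Nat.cast_le (α := ℝ)).2 (Set.ncard_le_ncard hsub h3)
      refine h5.trans (h4.trans ?_)
      have h6 := hdecay _ _ (min_le_right c1 c2) X
      have h7 := le_max_right C1 C2
      have h8 := hdpos (min c1 c2) X
      gcongr

end Pool.Agent.Results.MP_29b22a_nt.AlmostAllHeckeCharacters
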