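import Pool.Agent.Y727.KS.Pack
import Pool.Agent.TH940.Fin

/-!
# Newforms of any even weight: every Dirichlet twist of large order, and cyclotomic fields

`f` is a newform of weight `2 m` and level `N` with trivial character.  The functions `L(f, χ, s)`,
`χ` a Dirichlet character of conductor dividing `q`, are factors of `L(H^(2m-1)(X over ℚ(ζ_q)), s)`,
`X` the Kuga-Sato variety of dimension `2 m - 1` (`X = E^(2m-1)` if `f` has complex multiplication;
an abelian variety of `GL₂`-type if `m = 1`), and `s = m` is the centre.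
-/

set_option autoImplicit false

open Complex UpperHalfPlane MatrixGroups CongruenceSubgroup

namespace Pool.Agent.Results.MP_29b22a_nt.EvenWeightCyclotomic

/-- The `n`-th Fourier coefficient of `f`. -/
noncomputable def coef {N m : ℕ} (f : CuspForm (Gamma0 N : Subgroup (GL (Fin 2) ℝ)) (2 * m : ℤ))
    (n : ℕ) : ℂ :=
  (qExpansion 1 f).coeff n

/-- `f ∈ S_{2m}(Γ₀(N))` is a newform, with the standard properties: the Fourier coefficients `c(n)`
are real with `c(1) = 1`, `c(ab) = c(a) c(b)` for coprime `a`, `b`,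
`c(p^(j+2)) = c(p) c(p^(j+1)) - p^(2m-1) c(p^j)` (without the last term if `p ∣ N`), `f` is an
eigenfunction of the Fricke involution, `f(-1/(Nτ)) = w (√N τ/i)^(2m) f(τ)` with `w = ±1`,
`|c(p)| ≤ 2 p^(m - 1/2)` for the primes `p ∤ N` and `|c(p)| ≤ p^(m-1)` for `p ∣ N`. -/
structure IsNewform (N m : ℕ)
    (f : CuspForm (Gamma0 N : Subgroup (GL (Fin 2) ℝ)) (2 * m : ℤ)) : Prop where
  one : coef f 1 = 1
  real : ∀ n, (coef f n).im = 0
  mul : ∀ a b : ℕ, Nat.Coprime a b → coef f (a * b) = coef f a * coef f b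
  pow : ∀ p j : ℕ, p.Prime → coef f (p ^ (j + 2)) =
    coef f p * coef f (p ^ (j + 1)) - (if p ∣ N then 0 else (p : ℂ) ^ (2 * m - 1) * coef f (p ^ j))
  fricke : ∃ w : ℝ, (w = 1 ∨ w = -1) ∧ ∀ τ τ' : ℍ, (τ' : ℂ) * ((N : ℂ) * (τ : ℂ)) = -1 →
    f τ' = (w : ℂ) * (((Real.sqrt N : ℝ) : ℂ) * (τ : ℂ) / Complex.I) ^ (2 * m) * f τ
  good : ∀ p : ℕ, p.Prime → ¬ p ∣ N → ‖coef f p‖ ≤ 2 * (p : ℝ) ^ ((m : ℝ) - 1 / 2)
  bad : ∀ p : ℕ, p.Prime → p ∣ N → ‖coef f p‖ ≤ (p : ℝ) ^ (m - 1)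

lemma isNewf {N m : ℕ} (hm : 1 ≤ m)
    {f : CuspForm (Gamma0 N : Subgroup (GL (Fin 2) ℝ)) (2 * m : ℤ)} (hf : IsNewform N m f) :
    ∃ w : ℝ, W388.IsNewf N (2 * m : ℤ) f w := by
  obtain ⟨w, hw, hfr⟩ := hf.fricke
  refine ⟨w, hf.one, hf.real, hf.mul, fun p j hp => ?_, hw, fun τ τ' h => ?_⟩
  · have h1 := hf.pow p j hp
    have h2 : (p : ℂ) ^ ((2 * m : ℤ) - 1) = (p : ℂ) ^ (2 * m - 1) := by
      rw [show ((2 * m : ℤ) - 1) = ((2 * m - 1 : ℕ) : ℤ) by omega, zpow_natCast]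
    rw [h2]
    exact h1
  · have h1 := hfr τ τ' h
    have e : ∀ z : ℂ, z ^ (2 * m : ℤ) = z ^ (2 * m) := fun z => by
      rw [show (2 * m : ℤ) = ((2 * m : ℕ) : ℤ) by push_cast; rfl, zpow_natCast]
    rw [e]
    exact h1

lemma isCoef {N m : ℕ} [NeZero N] (hm : 1 ≤ m)
    {f : CuspForm (Gamma0 N : Subgroup (GL (Fin 2) ℝ)) (2 * m : ℤ)} (hf : IsNewform N m f) :
    Pool.Agent.W192.CY.Coef N (Pool.Agent.Y727.KS.cr f) := by
  have hre : ∀ n, coef f n = (((coef f n).re : ℝ) : ℂ) := by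
    intro n
    apply Complex.ext
    · simp
    · simp [hf.real n]
  have hcr : ∀ n, Pool.Agent.Y727.KS.cr f n = (coef f n).re / (n : ℝ) ^ (m - 1) := fun n => rfl
  have hnorm : ∀ n, |(coef f n).re| = ‖coef f n‖ := by
    intro n
    conv_rhs => rw [hre n]
    rw [Complex.norm_real, Real.norm_eq_abs]
  refine ⟨?_, ?_, ?_, ?_, ?_, ?_⟩
  · have h0 : coef f 0 = 0 := W388.coeff_zero f
    rw [hcr, h0]
    simp
  · rw [hcr, hf.one]
    simp
  · intro a b hab
    rw [hcr, hcr, hcr, hf.mul a b hab, hre a, hre b, ← Complex.ofReal_mul, Complex.ofReal_re,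
      Complex.ofReal_re, Complex.ofReal_re]
    push_cast
    rw [mul_pow, mul_div_mul_comm]
  · intro p j hp
    have hp0 : (0 : ℝ) < p := by exact_mod_cast hp.pos
    have h1 := hf.pow p j hp
    have h2 : (coef f (p ^ (j + 2))).re = (coef f p).re * (coef f (p ^ (j + 1))).re -
        (if p ∣ N then 0 else (p : ℝ) ^ (2 * m - 1) * (coef f (p ^ j)).re) := by
      have h3 : ((((coef f p).re * (coef f (p ^ (j + 1))).re -
        (if p ∣ N then 0 else (p : ℝ) ^ (2 * m - 1) * (coef f (p ^ j)).re) : ℝ)) : ℂ) =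
          coef f (p ^ (j + 2)) := by
        rw [h1, Complex.ofReal_sub, Complex.ofReal_mul, ← hre, ← hre]
        congr 1
        split_ifs
        · simp
        · rw [Complex.ofReal_mul, ← hre]
          push_cast
          rfl
      rw [← h3, Complex.ofReal_re]
    rw [hcr, hcr, hcr, hcr, h2]
    push_cast
    by_cases hpN : p ∣ N
    · rw [if_pos hpN, if_pos hpN, sub_zero, sub_zero, div_mul_div_comm]
      congr 1
      rw [← mul_pow]
      congr 1
      ring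
    · rw [if_neg hpN, if_neg hpN]
      have e1 : (p : ℝ) ^ (2 * m - 1) = (p : ℝ) ^ (m - 1) * (p : ℝ) ^ (m - 1) * p := by
        rw [← pow_add, ← pow_succ]
        congr 1
        omega
      rw [e1]
      have e2 : ∀ i : ℕ, ((p : ℝ) ^ i) ^ (m - 1) = ((p : ℝ) ^ (m - 1)) ^ i := fun i => by
        rw [← pow_mul, ← pow_mul, mul_comm]
      rw [e2, e2, e2]
      have h4 : (p : ℝ) ^ (m - 1) ≠ 0 := (pow_pos hp0 _).ne'
      field_simp
      ring
  · intro p hp hpN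
    have hp0 : (0 : ℝ) < p := by exact_mod_cast hp.pos
    rw [hcr, abs_div, hnorm, abs_of_pos (pow_pos hp0 _), div_le_iff₀ (pow_pos hp0 _)]
    refine (hf.good p hp hpN).trans (le_of_eq ?_)
    rw [mul_assoc]
    congr 1
    rw [Real.sqrt_eq_rpow, ← Real.rpow_natCast (p : ℝ) (m - 1), ← Real.rpow_add hp0]
    congr 1
    rw [Nat.cast_sub hm]
    push_cast
    ring
  · intro p hp hpN
    have hp0 : (0 : ℝ) < p := by exact_mod_cast hp.pos
    rw [hcr, abs_div, hnorm, abs_of_pos (pow_pos hp0 _), div_le_iff₀ (pow_pos hp0 _), one_mul]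
    exact hf.bad p hp hpN

/-- **Main theorem.** Let `f` be a newform of weight `2 m` and level `N`. For all primitive Dirichlet
characters `χ` of conductor `q` prime to `N` there are entire functions `L q χ`, equal to
`∑ χ(n) c(n) n^(-s)` for `Re s > m + 1/2`, whose order of vanishing at the centre `s = m` is finite
and at most `K (1 + log q)`. For every `ε > 0`: `L q χ m ≠ 0` for **all** `χ` of order at least
`q^(3/4 + ε)`, if `q` is large; and for all primes `p ≠ 2`, `p ∤ N` and all `k` the order of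
vanishing at `s = m` of `L(f / ℚ(ζ_q), s) = ∏ L(f, χ, s)`, `q = p^k`, the product over all
characters modulo `q`, is at most `C q^(3/4 + ε)` and at most `C p^(3 + ε)`, with `C` depending only
on `f` and `ε`. -/
theorem result (N : ℕ) [NeZero N] (m : ℕ) (hm : 1 ≤ m)
    (f : CuspForm (Gamma0 N : Subgroup (GL (Fin 2) ℝ)) (2 * m : ℤ)) (hf : IsNewform N m f) :
    ∃ (K : ℝ) (L : (q : ℕ) → DirichletCharacter ℂ q → ℂ → ℂ), 0 < K ∧
      (∀ (q : ℕ) (χ : DirichletCharacter ℂ q), 1 ≤ q → Nat.Coprime q N → χ.IsPrimitive →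
        Differentiable ℂ (L q χ) ∧ (∀ s : ℂ, (m : ℝ) + 1 / 2 < s.re →
          HasSum (fun n : ℕ => χ (n : ZMod q) * coef f n * (n : ℂ) ^ (-s)) (L q χ s)) ∧
        analyticOrderAt (L q χ) (m : ℂ) ≠ ⊤ ∧
        (analyticOrderNatAt (L q χ) (m : ℂ) : ℝ) ≤ K * (1 + Real.log q)) ∧
      ∀ ε : ℝ, 0 < ε →
        (∃ q₀ : ℝ, ∀ q : ℕ, q₀ ≤ q → Nat.Coprime q N → ∀ χ : DirichletCharacter ℂ q,
          χ.IsPrimitive → (q : ℝ) ^ (3 / 4 + ε) ≤ orderOf χ → L q χ (m : ℂ) ≠ 0) ∧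
        ∃ C : ℝ, ∀ p : ℕ, p.Prime → p ≠ 2 → ¬ p ∣ N → ∀ k : ℕ,
          ((∑ᶠ χ : DirichletCharacter ℂ (p ^ k),
              analyticOrderNatAt (L χ.conductor χ.primitiveCharacter) (m : ℂ) : ℕ) : ℝ) ≤
            C * min (((p : ℝ) ^ k) ^ (3 / 4 + ε)) ((p : ℝ) ^ (3 + ε)) := by
  obtain ⟨w, hfw⟩ := isNewf hm hf
  obtain ⟨K, L, hK, h1, h2⟩ := Pool.Agent.Y727.KS.pack hm hfw (isCoef hm hf)
  have hGH : Pool.Agent.TH940.GH N K (fun q χ => analyticOrderNatAt (L q χ) (m : ℂ)) := by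
    refine ⟨hK, fun q χ hq hqN hχ => (h1 q χ hq hqN hχ).2.2.2, fun δ hδ => ?_⟩
    obtain ⟨q0, hq0⟩ := h2 δ hδ
    refine ⟨q0, fun q hq hq1 hqN χ hχ hord => ?_⟩
    have h3 := hq0 q hq hq1 hqN χ hχ hord
    have h4 := (h1 q χ (by omega) hqN hχ).1
    unfold analyticOrderNatAt
    rw [(h4.analyticAt _).analyticOrderAt_eq_zero.2 h3]
    rfl
  refine ⟨K, L, hK, h1, fun ε hε => ⟨?_, ?_⟩⟩
  · obtain ⟨q0, hq0⟩ := h2 ε hε
    refine ⟨max q0 2, fun q hq hqN χ hχ hord => ?_⟩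
    have h3 : (2 : ℝ) ≤ q := (le_max_right _ _).trans hq
    have h4 : 2 ≤ q := by exact_mod_cast h3
    exact hq0 q ((le_max_left _ _).trans hq) (by omega) hqN χ hχ hord
  · obtain ⟨C1, hC1, h3⟩ := Pool.Agent.TH940.tot_bound hGH hε
    obtain ⟨C2, hC2, h4⟩ := Pool.Agent.TH940.tot_bound2 hGH hε
    refine ⟨max C1 C2, fun p hp hp2 hpN k => ?_⟩
    have h5 := h3 p hp hp2 hpN k
    have h6 := h4 p hp hp2 hpN k
    unfold Pool.Agent.TH940.tot at h5 h6
    have hp0 : (0 : ℝ) < p := by exact_mod_cast hp.pos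
    rcases min_choice (((p : ℝ) ^ k) ^ (3 / 4 + ε)) ((p : ℝ) ^ (3 + ε)) with h | h
    · rw [h]
      refine h5.trans ?_
      gcongr
      exact le_max_left _ _
    · rw [h]
      refine h6.trans ?_
      gcongr
      exact le_max_right _ _

end Pool.Agent.Results.MP_29b22a_nt.EvenWeightCyclotomic
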