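import Pool.Agent.Y194.UL.Main

/-!
# Cyclic extensions of prime power degree: a uniform bound for the number of the layers with new zeros of
# the central values, for newforms of even weight

`f_1, ..., f_r` are newforms of even weights `2m_i` with characters `η_i`, `M_i` their motives.  A
character `ψ` of order `ℓ^n` defines a cyclic extension `K_n` of `ℚ` with the layers
`ℚ = K_0 ⊂ K_1 ⊂ ⋯ ⊂ K_n`, and `L(M_i ⊗ K_k, s) / L(M_i ⊗ K_(k-1), s)` is the product of the `L(f_i, χ, s)`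
over the powers `χ` of `ψ` of order `ℓ^k`.

Method: modular symbols with polynomial coefficients, made algebraic integers by a functional that
respects the algebraic linear relations, give a polynomial `P` over the algebraic integers with
`P(ζ^j) = 0` if one of the central values for `χ = ψ^j` vanishes, `ζ` a primitive root of unity of order
`ℓ^n`, and `P(1)` is a constant that depends on the base only times the factors of the ramified primes.  So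
the product of the `1 - ζ^j` over the zeros divides `P(1)`, and `1 - ζ^j` has valuation
`1/φ(ord ζ^j)` at every maximal ideal above `ℓ`.
-/

set_option autoImplicit false

open Complex UpperHalfPlane MatrixGroups CongruenceSubgroup

namespace Pool.Agent.Results.MP_29b22a_nt.LayersEvenWeight

/-- The `n`-th Fourier coefficient of `f`. -/
noncomputable def coef {N : ℕ} {k : ℤ} (f : CuspForm (Gamma1 N : Subgroup (GL (Fin 2) ℝ)) k)
    (n : ℕ) : ℂ :=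
  (qExpansion 1 f).coeff n

/-- `f ∈ S_{2m}(Γ₁(N))` is a newform of weight `2m` with character `η`:
`f(γτ) = η(d) (cτ + d)^(2m) f(τ)` for all `γ = (a b; c d) ∈ Γ₀(N)`, the Fourier coefficients `c(n)` of
`f` satisfy `c(1) = 1`, `c(ab) = c(a) c(b)` for coprime `a`, `b`,
`c(p^(j+2)) = c(p) c(p^(j+1)) - η(p) p^(2m-1) c(p^j)`, and for the primes `p ∤ N` also
`conj c(p) = conj η(p) c(p)` and `|c(p)| ≤ 2 p^((2m-1)/2)` (Deligne), for the primes `p ∣ N`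
`|c(p)| ≤ p^((2m-1)/2)`; the Fricke involution takes `f` to a multiple of `f^c`,
`f^c(τ) = conj f(-conj τ)`: `f(-1/(Nτ)) = w (-N)^m τ^(2m) f^c(τ)` with `|w| = 1`. -/
structure IsNewform (m N : ℕ) (η : DirichletCharacter ℂ N)
    (f : CuspForm (Gamma1 N : Subgroup (GL (Fin 2) ℝ)) (2 * m : ℤ)) : Prop where
  neb : ∀ γ : SL(2, ℤ), γ ∈ Gamma0 N → ∀ τ : ℍ, f (γ • τ) = η ((γ 1 1 : ℤ) : ZMod N) *
    (((γ 1 0 : ℤ) : ℂ) * (τ : ℂ) + ((γ 1 1 : ℤ) : ℂ)) ^ (2 * m) * f τ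
  one : coef f 1 = 1
  mul : ∀ a b : ℕ, Nat.Coprime a b → coef f (a * b) = coef f a * coef f b
  pow : ∀ p j : ℕ, p.Prime → coef f (p ^ (j + 2)) = coef f p * coef f (p ^ (j + 1)) -
    η (p : ZMod N) * (p : ℂ) ^ (2 * m - 1) * coef f (p ^ j)
  conj : ∀ p : ℕ, p.Prime → ¬ p ∣ N → (starRingEnd ℂ) (coef f p) =
    (starRingEnd ℂ) (η (p : ZMod N)) * coef f p
  good : ∀ p : ℕ, p.Prime → ¬ p ∣ N → ‖coef f p‖ ≤ 2 * (p : ℝ) ^ ((2 * m - 1 : ℝ) / 2)
  bad : ∀ p : ℕ, p.Prime → p ∣ N → ‖coef f p‖ ≤ (p : ℝ) ^ ((2 * m - 1 : ℝ) / 2)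
  fricke : ∃ w : ℂ, ‖w‖ = 1 ∧ ∀ τ τ' τc : ℍ, (τ' : ℂ) * ((N : ℂ) * (τ : ℂ)) = -1 →
    (τc : ℂ) = -(starRingEnd ℂ) (τ : ℂ) →
    f τ' = (-1 : ℂ) ^ m * w * (N : ℂ) ^ m * (τ : ℂ) ^ (2 * m) * (starRingEnd ℂ) (f τc)

/-- Families `χ = (χ_q)` of Dirichlet characters, `χ_q` modulo `q`, with the product of families.  Only
families with `χ_q = 1` for all but finitely many `q` occur; such a family stands for the primitive
character `∏ χ_q`, the product over the `q` with `χ_q ≠ 1` (these `q` will be primes). -/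
abbrev Family : Type := (q : ℕ) → DirichletCharacter ℂ q

/-- The value at `n` of the primitive character `χ₀ ∏ χ_q`. -/
noncomputable def value {c : ℕ} (χ₀ : DirichletCharacter ℂ c) (χ : Family) (n : ℕ) : ℂ :=
  χ₀ (n : ZMod c) * ∏ᶠ (q : ℕ) (_ : χ q ≠ 1), χ q (n : ZMod q)

/-- `L(f, χ₀χ, s)`, the Euler product of the
`(1 - ψ(p) c(p) p^(-s) + ψ(p)² η(p) p^(2m-1-2s))⁻¹`, `ψ = χ₀ ∏ χ_q`, for `Re s > m + 1/2`, extends to
an entire function, and `L(f, χ₀χ, m) ≠ 0`. -/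
def Nonvanishing {m N c : ℕ} (η : DirichletCharacter ℂ N)
    (f : CuspForm (Gamma1 N : Subgroup (GL (Fin 2) ℝ)) (2 * m : ℤ)) (χ₀ : DirichletCharacter ℂ c)
    (χ : Family) : Prop :=
  ∃ L : ℂ → ℂ, Differentiable ℂ L ∧ (∀ s : ℂ, (m : ℝ) + 1 / 2 < s.re →
    HasProd (fun p : Nat.Primes => (1 - value χ₀ χ p * coef f p * ((p : ℕ) : ℂ) ^ (-s) +
      value χ₀ χ p ^ 2 * η ((p : ℕ) : ZMod N) * ((p : ℕ) : ℂ) ^ (2 * (m : ℂ) - 1 - 2 * s))⁻¹)
      (L s)) ∧ L m ≠ 0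

section
variable {r : ℕ} {m N : Fin r → ℕ} (η : (i : Fin r) → DirichletCharacter ℂ (N i))
  (f : (i : Fin r) → CuspForm (Gamma1 (N i) : Subgroup (GL (Fin 2) ℝ)) (2 * m i : ℤ))
  {c : Fin r → ℕ} (χ₀ : (i : Fin r) → DirichletCharacter ℂ (c i)) (ℓ n : ℕ) (ψ : Family)

open Classical in
/-- For `ψ` of order `ℓ^n`: the sum of `1/φ(ord χ)` over the powers `χ = ψ^j ≠ 1` of `ψ` such that, for
at least one `i`, it is not true that `L(f_i, χ₀ᵢχ, s)` is entire and not zero at `s = m_i`. -/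
noncomputable def weight : ℚ :=
  ∑ j ∈ (Finset.Ico 1 (ℓ ^ n)).filter (fun j => ∃ i, ¬ Nonvanishing (η i) (f i) (χ₀ i) (ψ ^ j)),
    (1 : ℚ) / Nat.totient (orderOf (ψ ^ j))

open Classical in
/-- For `ψ` of order `ℓ^n`: the number of the `k`, `1 ≤ k ≤ n`, such that there is a power `χ` of `ψ` of
order `ℓ^k` of this kind. -/
noncomputable def layers : ℕ :=
  ((Finset.Icc 1 n).filter (fun k => ∃ j : ℕ, orderOf (ψ ^ j) = ℓ ^ k ∧
    ∃ i, ¬ Nonvanishing (η i) (f i) (χ₀ i) (ψ ^ j))).card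

end

/-- **Main theorem.** Let `f_i ∈ S_{2m_i}(Γ₁(N_i))`, `i = 1, ..., r`, be newforms with characters
`η_i` and Fourier coefficients `c_i(n)`.

Let `χ₀ᵢ` be primitive Dirichlet characters of conductors prime to `N_i` with `L(f_i, χ₀ᵢ, m_i) ≠ 0`
for all `i`.  There are integers `D ≥ 1` and `A` such that for **all** prime numbers `ℓ`, all maximal
ideals `𝔪` above `ℓ` of the ring of all algebraic integers, **all** `n` and **all** Dirichlet characters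
`ψ` of order `ℓ^n` the following hold.

(A) If the conductor of `ψ` is squarefree and composed of primes `q`, prime to the `N_i` and to the
conductors of the `χ₀ᵢ`, with `c_i(q) - η_i(q) χ₀ᵢ(q) - χ₀ᵢ(q)⁻¹ ∉ 𝔪` for all `i`, then the sum of
`1/φ(ord χ)` over the powers `χ ≠ 1` of `ψ` with `L(f_i, χ₀ᵢχ, m_i) = 0` for some `i` is at most
`v_ℓ(D)`, and such `χ` exist in at most `A v_ℓ(D)` of the `n` layers; none exists if `ℓ` does not divide
`D`.

(B) If the conductor of `ψ` is squarefree and composed of primes in a finite set `S` of primes prime to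
the `N_i` and to the conductors of the `χ₀ᵢ`, and `b_i ≥ 1` are integers such that
`∏_{q ∈ S} (c_i(q) - η_i(q) q^(m_i-1) χ₀ᵢ(q) - q^(m_i-1) χ₀ᵢ(q)⁻¹)` divides `b_i` at `𝔪` (there are
algebraic integers `y` and `x ∉ 𝔪` with `y ∏ = b_i x`), then the same holds with `v_ℓ(D ∏ b_i)` in place of
`v_ℓ(D)`.

(C) Let `ℓ` be a prime that does not divide the `N_i`.  There are a primitive character `χ₀` whose
conductor and order are powers of `ℓ`, and `A`, `V`, such that for all `𝔪` above `ℓ`, all `n` and all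
Dirichlet characters `ψ` of order `ℓ^n` and squarefree conductor composed of primes `q`, prime to the
`N_i`, with `c_i(q) - 1 - η_i(q) ∉ 𝔪` for all `i`, the sum of `1/φ(ord χ)` over the powers `χ ≠ 1` of `ψ`
with `L(f_i, χ₀χ, m_i) = 0` for some `i` is at most `V`, and such `χ` exist in at most `A V` of the `n`
layers. -/
theorem result (r : ℕ) (m N : Fin r → ℕ) [∀ i, NeZero (N i)] (hm : ∀ i, 1 ≤ m i)
    (η : (i : Fin r) → DirichletCharacter ℂ (N i))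
    (f : (i : Fin r) → CuspForm (Gamma1 (N i) : Subgroup (GL (Fin 2) ℝ)) (2 * m i : ℤ))
    (hf : ∀ i, IsNewform (m i) (N i) (η i) (f i)) :
    (∀ (c : Fin r → ℕ) (χ₀ : (i : Fin r) → DirichletCharacter ℂ (c i)),
      (∀ i, 1 ≤ c i ∧ Nat.Coprime (c i) (N i) ∧ (χ₀ i).IsPrimitive ∧
        Nonvanishing (η i) (f i) (χ₀ i) 1) →
      ∃ D A : ℕ, 1 ≤ D ∧ ∀ ℓ : ℕ, ℓ.Prime → ∀ 𝔪 : Ideal (integralClosure ℤ ℂ), 𝔪.IsMaximal →
        (ℓ : integralClosure ℤ ℂ) ∈ 𝔪 → ∀ (ψ : Family) (n : ℕ), orderOf ψ = ℓ ^ n →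
        (({q | ψ q ≠ 1}.Finite ∧
            ∀ q, ψ q ≠ 1 → q.Prime ∧ ∀ i, ¬ q ∣ N i ∧ ¬ q ∣ c i ∧
              ∃ x : integralClosure ℤ ℂ, x ∉ 𝔪 ∧ (x : ℂ) = coef (f i) q -
                η i (q : ZMod (N i)) * χ₀ i (q : ZMod (c i)) - (χ₀ i (q : ZMod (c i)))⁻¹) →
          weight η f χ₀ ℓ n ψ ≤ padicValNat ℓ D ∧ layers η f χ₀ ℓ n ψ ≤ A * padicValNat ℓ D) ∧
        (∀ S : Finset ℕ, (∀ q ∈ S, q.Prime ∧ ∀ i, ¬ q ∣ N i ∧ ¬ q ∣ c i) →
          (∀ q, ψ q ≠ 1 → q ∈ S) →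
          ∀ b : Fin r → ℕ, (∀ i, 1 ≤ b i ∧ ∃ x y : integralClosure ℤ ℂ, x ∉ 𝔪 ∧
            (y : ℂ) * ∏ q ∈ S, (coef (f i) q - η i (q : ZMod (N i)) * (q : ℂ) ^ (m i - 1) *
              χ₀ i (q : ZMod (c i)) - (q : ℂ) ^ (m i - 1) * (χ₀ i (q : ZMod (c i)))⁻¹) =
                b i * (x : ℂ)) →
          weight η f χ₀ ℓ n ψ ≤ padicValNat ℓ (D * ∏ i, b i) ∧
            layers η f χ₀ ℓ n ψ ≤ A * padicValNat ℓ (D * ∏ i, b i))) ∧
    (∀ ℓ : ℕ, ℓ.Prime → (∀ i, ¬ ℓ ∣ N i) → ∃ (k a : ℕ) (χ₀ : DirichletCharacter ℂ (ℓ ^ k)),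
      χ₀.IsPrimitive ∧ χ₀ ^ (ℓ ^ a) = 1 ∧ ∃ A V : ℕ, ∀ 𝔪 : Ideal (integralClosure ℤ ℂ),
        𝔪.IsMaximal → (ℓ : integralClosure ℤ ℂ) ∈ 𝔪 →
        ∀ (ψ : Family) (n : ℕ), orderOf ψ = ℓ ^ n →
        ({q | ψ q ≠ 1}.Finite ∧
          ∀ q, ψ q ≠ 1 → q.Prime ∧ ∀ i, ¬ q ∣ N i ∧ ∃ x : integralClosure ℤ ℂ, x ∉ 𝔪 ∧
            (x : ℂ) = coef (f i) q - 1 - η i (q : ZMod (N i))) →
        weight η f (fun _ => χ₀) ℓ n ψ ≤ V ∧ layers η f (fun _ => χ₀) ℓ n ψ ≤ A * V) := by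
  choose w hw hfr using fun i => (hf i).fricke
  have hN : ∀ i, Pool.Agent.W192.CY.NNewf (m i) (N i) (η i) (f i) (w i) := fun i =>
    ⟨(hf i).one, (hf i).mul, (hf i).pow, (hf i).conj, (hf i).good, (hf i).bad, (hf i).neb, hw i,
      hfr i⟩
  refine ⟨fun c χ₀ h => ?_, fun ℓ hℓ hℓN => ?_⟩
  · exact Pool.Agent.Y194.UL.both hm hN (fun i => (h i).1) χ₀ (fun i => (h i).2.2.1)
      (fun i => (h i).2.1) (fun i => (h i).2.2.2)
  · exact Pool.Agent.Y194.UL.base hm hN hℓ hℓN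

end Pool.Agent.Results.MP_29b22a_nt.LayersEvenWeight
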