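import Pool.Agent.Y727.WA.Fin
import Pool.Agent.Y727.WA.Tv

/-!
# Simple zeros at the centre of `L(ψ Ψ ^ j, s)`, `j → ∞`

`R` is the ring of integers of an imaginary quadratic field `K` of class number one, `w = #R^*`,
`m ≥ 1`, `ψ` a primitive Hecke character of `K` of conductor `f` and infinity type `(2 m - 1, 0)` with
`ψ(bar I) = conj ψ(I)`, `Ψ` the unramified Hecke character with `Ψ((α)) = α ^ (2 w)`.  The functions
`L(ψ Ψ ^ j, s)` have functional equations relating `s` and `2 (m + w j) - s` with the same sign for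
all `j`.  If this sign is `-1`, then for at least `c T / log T` of the `j < T` the function
`L(ψ Ψ ^ j, s)` has a simple zero at its centre `s = m + w j`; the same in short intervals.

If `E` is an elliptic curve with complex multiplication by `R` and Hecke character `φ`, then for every
odd `t` the functions `L(φ ^ t Ψ ^ j χ, s)`, `χ` a ring class character, are of this form, and
`φ ^ t Ψ ^ j` induces the same primitive character as `φ ^ (t + 2 w j)`; they are factors of
`L(H ^ i(E ^ i), s)`, `i = t + 2 w j`, over ring class fields, with the same centre.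

The approach: the derivative at the centre is twice a sum over the ideals with a weight function with
a logarithmic singularity; the ideals are written as `(k) c`, `c` prime to its conjugate.  The angles
of the different `c` are well spaced: `|z(c) - z(c')| ≥ κ / √(N(c) N(c'))`.  This gives the first moment
by summation by parts in `j` and the second moment by the large sieve.
-/

set_option autoImplicit false

open Complex

namespace Pool.Agent.Results.MP_29b22a_nt.WeightAspectSimpleZeros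

/-- The norm `N(I)` of an ideal (`0` for the zero ideal, whose residue ring is infinite). -/
noncomputable def norm {R : Subring ℂ} (I : Ideal R) : ℝ := (Nat.card (R ⧸ I) : ℝ)

/-- `ψ`, a function on the ideals of `R`, is a primitive Hecke character of conductor `f` and infinity
type `(n, 0)`: it is multiplicative, vanishes exactly at the zero ideal and the ideals not prime to
`f`, satisfies `ψ((α)) = α ^ n` for `α ≡ 1 mod f`, and this fails for every strictly larger ideal `f'`
in place of `f`. -/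
structure IsHecke {R : Subring ℂ} (n : ℕ) (f : Ideal R) (ψ : Ideal R → ℂ) : Prop where
  ne_bot : f ≠ ⊥
  mul : ∀ I J : Ideal R, ψ (I * J) = ψ I * ψ J
  eq_zero : ∀ I : Ideal R, ψ I = 0 ↔ (I = ⊥ ∨ ¬ IsCoprime I f)
  principal : ∀ α : R, α ≠ 0 → α - 1 ∈ f → ψ (Ideal.span {α}) = (α : ℂ) ^ n
  primitive : ∀ f' : Ideal R, f < f' → ∃ α : R, α ≠ 0 ∧ α - 1 ∈ f' ∧ IsCoprime (Ideal.span {α}) f ∧
    ψ (Ideal.span {α}) ≠ (α : ℂ) ^ n

/-- `ψ(bar I) = conj ψ(I)` (for principal ideals) -/
def ConjSymmetric {R : Subring ℂ} (ψ : Ideal R → ℂ) : Prop :=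
  ∀ α β : R, (β : ℂ) = (starRingEnd ℂ) (α : ℂ) →
    ψ (Ideal.span {β}) = (starRingEnd ℂ) (ψ (Ideal.span {α}))

/-- the centre of `L(ψ Ψ ^ j, s)`, where `w = #R^*` -/
noncomputable def centre (R : Subring ℂ) (m j : ℕ) : ℕ := m + Nat.card Rˣ * j

/-- `F` is entire and `F(s) = ∑ θ(I) N(I)^(-s)` for `Re s > m + 1/2`. -/
structure IsLFunction {R : Subring ℂ} (m : ℕ) (θ : Ideal R → ℂ) (F : ℂ → ℂ) : Prop where
  entire : Differentiable ℂ F
  series : ∀ s : ℂ, (m : ℝ) + 1 / 2 < s.re →
    HasSum (fun I : Ideal R => θ I * (norm I : ℂ) ^ (-s)) (F s)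

/-- The functional equation with conductor `f` and sign `W`: with `A = √(|D| N(f)) / 2π`, where
`√|D| = 2 Im ω`, and `Λ(s) = A ^ s Γ(s) F(s)`, one has `Λ(s) = W Λ(2 m - s)` for
`0 < Re s < 2 m`. -/
def FunctionalEquation {R : Subring ℂ} (m : ℕ) (ω : ℂ) (f : Ideal R) (W : ℂ) (F : ℂ → ℂ) : Prop :=
  ∀ s : ℂ, 0 < s.re → s.re < 2 * m →
    ((ω.im * Real.sqrt (norm f) / Real.pi : ℝ) : ℂ) ^ s * Complex.Gamma s * F s =
      W * (((ω.im * Real.sqrt (norm f) / Real.pi : ℝ) : ℂ) ^ (2 * (m : ℂ) - s) *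
        Complex.Gamma (2 * (m : ℂ) - s) * F (2 * (m : ℂ) - s))

/-- the `j` with `a ≤ j < b` for which `L j` has a simple zero at its centre, with derivative of
absolute value at least `t` -/
def simple (R : Subring ℂ) (m : ℕ) (L : ℕ → ℂ → ℂ) (t : ℝ) (a b : ℕ) : Set ℕ :=
  {j : ℕ | a ≤ j ∧ j < b ∧ analyticOrderAt (L j) (centre R m j : ℂ) = 1 ∧
    t ≤ ‖deriv (L j) (centre R m j : ℂ)‖}

open Pool.Agent.W192.HK in
theorem isHecke_iff {R : Subring ℂ} (n : ℕ) (f : Ideal R) (ψ : Ideal R → ℂ) :
    IsHecke n f ψ ↔ HC n f ψ :=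
  ⟨fun h => ⟨h.ne_bot, h.mul, h.eq_zero, h.principal, h.primitive⟩,
    fun h => ⟨h.ne, h.mul, h.zero, h.princ, h.prim⟩⟩

/-- **Main theorem.** Let `R = ℤ + ℤ ω` be a subring of `ℂ` that is a lattice and a principal ideal
domain, `w` the number of its units, `m ≥ 1`, `ψ` a primitive Hecke character of conductor `f` and
infinity type `(2 m - 1, 0)` on the ideals of `R` with `ψ(bar I) = conj ψ(I)`, and
`Ψ((α)) = α ^ (2 w)`.  There are `W = ±1` and functions `L j`, `j ≥ 0`, such that `ψ Ψ ^ j` is a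
primitive Hecke character of conductor `f` and infinity type `(2 (m + w j) - 1, 0)`, `L j` is
`L(ψ Ψ ^ j, s)` and has the functional equation with centre `m + w j` and sign `W`, and its order of
vanishing `r` at `s = m + w j` is finite with `(-1) ^ r = W`.  If `W = -1` then there are `c, C > 0`
such that

* for `J ≥ C` and `C √J log J ≤ H ≤ J` there are at least `c H ^ 2 / (J + H log J)` numbers `j` with
  `J ≤ j < J + H` such that `L j` has a simple zero at `s = m + w j` and its derivative there has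
  absolute value at least `c log J`;
* for `T ≥ C` there are at least `c T / log T` numbers `j < T` such that `L j` has a simple zero at
  `s = m + w j`. -/
theorem result (R : Subring ℂ) (ω : ℂ) (hω : 0 < ω.im)
    (hR : ∀ z : ℂ, z ∈ R ↔ ∃ x y : ℤ, z = x + y * ω) (hpid : IsPrincipalIdealRing R)
    (m : ℕ) (hm : 1 ≤ m) (f : Ideal R) (ψ : Ideal R → ℂ) (hψ : IsHecke (2 * m - 1) f ψ)
    (hc : ConjSymmetric ψ) (Ψ : Ideal R → ℂ)
    (hΨ : ∀ α : R, Ψ (Ideal.span {α}) = (α : ℂ) ^ (2 * Nat.card Rˣ)) :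
    ∃ (W : ℂ) (L : ℕ → ℂ → ℂ), (W = 1 ∨ W = -1) ∧
      (∀ j : ℕ, IsHecke (2 * centre R m j - 1) f (fun I => ψ I * Ψ I ^ j) ∧
        IsLFunction (centre R m j) (fun I => ψ I * Ψ I ^ j) (L j) ∧
        FunctionalEquation (centre R m j) ω f W (L j) ∧
        analyticOrderAt (L j) (centre R m j : ℂ) ≠ ⊤ ∧
        (-1) ^ analyticOrderNatAt (L j) (centre R m j : ℂ) = W) ∧
      (W = -1 → ∃ c C : ℝ, 0 < c ∧ 0 < C ∧
        (∀ J H : ℕ, C ≤ J → C * Real.sqrt J * Real.log J ≤ H → H ≤ J →
          c * H ^ 2 / (J + H * Real.log J) ≤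
            ((simple R m L (c * Real.log J) J (J + H)).ncard : ℝ)) ∧
        ∀ T : ℕ, C ≤ T → c * T / Real.log T ≤ ((simple R m L 0 0 T).ncard : ℝ)) := by
  have abar := Pool.Agent.Y692.QN.F_bar
  have hQ : Pool.Agent.TH936.AC.QP R ω := ⟨⟨hω, hR, inferInstance⟩, hpid⟩
  have hψe : Pool.Agent.W192.HK.HC (2 * m - 1) f ψ := (isHecke_iff _ _ _).1 hψ
  have hΨe : Pool.Agent.Y727.WA.IsPs Ψ := hΨ
  have hcs : Pool.Agent.TH936.AC.CS ψ := by
    intro I
    obtain ⟨α, hα⟩ : ∃ α : R, I = Ideal.span {α} := (hpid.principal I).principal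
    obtain ⟨k1, -, -, -, -, k6, -⟩ := abar R ω hQ
    obtain ⟨β, hβ⟩ := k1 α
    have e1 : Pool.Agent.TH936.AC.bar I = Ideal.span {β} := by
      rw [hα]
      exact k6 α β hβ
    rw [e1, hα]
    exact hc α β hβ
  obtain ⟨W, L, hW, m1, m2, m3, m4, m5, m6⟩ := Pool.Agent.Y727.WA.final hQ hm hψe hcs hΨe
  refine ⟨W, L, hW, fun j => ⟨?_, ⟨m1 j, m2 j⟩, m3 j, m4 j, (m5 j).symm⟩, fun hW1 => ?_⟩
  · exact (isHecke_iff _ _ _).2
      (Pool.Agent.Y727.WA.hc_tw Pool.Agent.Y692.QN.F_basic hQ hm hψe hΨe j)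
  obtain ⟨c, C, hc0, hC0, hcount⟩ := m6 hW1
  have key : ∀ J H : ℕ, C ≤ J → C * Real.sqrt J * Real.log J ≤ H → H ≤ J →
      c * H ^ 2 / (J + H * Real.log J) ≤
        ((simple R m L (c * Real.log J) J (J + H)).ncard : ℝ) := by
    intro J H h1 h2 h3
    refine (hcount J H h1 h2 h3).trans ?_
    have e1 : (((Finset.range H).filter (fun k => analyticOrderAt (L (J + k))
        (Pool.Agent.Y727.WA.mj R m (J + k) : ℂ) = 1 ∧ c * Real.log J ≤
          ‖deriv (L (J + k)) (Pool.Agent.Y727.WA.mj R m (J + k) : ℂ)‖)).card) ≤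
        (simple R m L (c * Real.log J) J (J + H)).ncard := by
      rw [← Set.ncard_coe_finset]
      refine Set.ncard_le_ncard_of_injOn (fun k => J + k) ?_ ?_ ?_
      · intro k hk
        obtain ⟨k1, k2, k3⟩ := Finset.mem_filter.1 (Finset.mem_coe.1 hk)
        exact ⟨Nat.le_add_right J k, Nat.add_lt_add_left (Finset.mem_range.1 k1) J, k2, k3⟩
      · intro a _ b _ hab
        exact Nat.add_left_cancel hab
      · exact (Set.finite_lt_nat (J + H)).subset fun j hj => hj.2.1
    exact_mod_cast e1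
  obtain ⟨c', C', hc', hC', hT⟩ := Pool.Agent.Y727.WA.count_T
    (fun j => analyticOrderAt (L j) (centre R m j : ℂ) = 1) c C hc0 hC0 (by
      intro J H h1 h2 h3
      refine (key J H h1 h2 h3).trans ?_
      have hsub : simple R m L (c * Real.log J) J (J + H) ⊆
          {j : ℕ | J ≤ j ∧ j < J + H ∧ analyticOrderAt (L j) (centre R m j : ℂ) = 1} := by
        rintro j ⟨a1, a2, a3, -⟩
        exact ⟨a1, a2, a3⟩
      have hfin : {j : ℕ | J ≤ j ∧ j < J + H ∧
          analyticOrderAt (L j) (centre R m j : ℂ) = 1}.Finite :=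
        (Set.finite_lt_nat (J + H)).subset fun j hj => hj.2.1
      exact_mod_cast Set.ncard_le_ncard hsub hfin)
  refine ⟨min c c', max C C', lt_min hc0 hc', lt_max_of_lt_left hC0, ?_, ?_⟩
  · intro J H h1 h2 h3
    have hJ0 : (0 : ℝ) < J := lt_of_lt_of_le (lt_max_of_lt_left hC0) h1
    have hl : 0 ≤ Real.log J := Real.log_natCast_nonneg J
    have h4 : C * Real.sqrt J * Real.log J ≤ H := by
      refine le_trans ?_ h2
      exact mul_le_mul_of_nonneg_right (mul_le_mul_of_nonneg_right (le_max_left _ _)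
        (Real.sqrt_nonneg _)) hl
    have h5 := key J H ((le_max_left _ _).trans h1) h4 h3
    have h6 : min c c' * H ^ 2 / (J + H * Real.log J) ≤ c * H ^ 2 / (J + H * Real.log J) := by
      refine div_le_div_of_nonneg_right ?_ (by positivity)
      exact mul_le_mul_of_nonneg_right (min_le_left _ _) (by positivity)
    refine h6.trans (h5.trans ?_)
    have hsub : simple R m L (c * Real.log J) J (J + H) ⊆
        simple R m L (min c c' * Real.log J) J (J + H) := by
      rintro j ⟨a1, a2, a3, a4⟩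
      exact ⟨a1, a2, a3, (mul_le_mul_of_nonneg_right (min_le_left _ _) hl).trans a4⟩
    have hfin : (simple R m L (min c c' * Real.log J) J (J + H)).Finite :=
      (Set.finite_lt_nat (J + H)).subset fun j hj => hj.2.1
    exact_mod_cast Set.ncard_le_ncard hsub hfin
  · intro T h1
    have h2 := hT T ((le_max_right _ _).trans h1)
    have h3 : min c c' * T / Real.log T ≤ c' * T / Real.log T := by
      refine div_le_div_of_nonneg_right ?_ (Real.log_natCast_nonneg T)
      exact mul_le_mul_of_nonneg_right (min_le_right _ _) (Nat.cast_nonneg T)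
    refine h3.trans (h2.trans ?_)
    have hsub : {j : ℕ | j < T ∧ analyticOrderAt (L j) (centre R m j : ℂ) = 1} ⊆
        simple R m L 0 0 T := by
      rintro j ⟨a1, a2⟩
      exact ⟨Nat.zero_le _, a1, a2, norm_nonneg _⟩
    have hfin : (simple R m L 0 0 T).Finite :=
      (Set.finite_lt_nat T).subset fun j hj => hj.2.1
    exact_mod_cast Set.ncard_le_ncard hsub hfin

end Pool.Agent.Results.MP_29b22a_nt.WeightAspectSimpleZeros
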